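import Pool.Agent.UPQ.G.Ord
import Pool.Agent.UPQ.J.Quot
import Pool.Agent.QD.F.Quot

/-!
# UPQ/G-Fin: no poles implies Hasse-Weil

`G s = Q s * L s` with `L` entire (`entire_quot`), of finite order in strips (`finOrd_quot_fo`).
The zeros of `Q` and of `s ↦ Q (2 - s)` are isolated (`gfin_ne`),
so `L` agrees with `D.Lam` for `Re s > 3/2` and has the functional equation.
-/

namespace Pool.Agent.UPQ

open NumberField IsDedekindDomain Pool.Agent.HWR Pool.Agent.QD Pool.Agent.QD.In Pool.Agent.LD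
  Pool.Agent.MD Pool.Agent.THF

section

variable {T : Finset ℕ} (D : LocData T) {a : ℕ → ℝ} {F : Type} [Field F] [NumberField F]

private theorem gfin_diff {ι : Type} {f : ι → ℂ → ℂ} {σ₀ : ℝ} {u : ℝ → ι → ℝ}
    (hu : ∀ b, σ₀ < b → Summable (u b))
    (hb : ∀ b, σ₀ < b → ∀ s : ℂ, b ≤ s.re → ∀ i, ‖f i s - 1‖ ≤ u b i)
    (hd : ∀ i (s : ℂ), σ₀ < s.re → DifferentiableAt ℂ (f i) s) :
    DifferentiableOn ℂ (fun s => ∏' i, f i s) {s : ℂ | σ₀ < s.re} := by
  intro s hs
  have hs' : σ₀ < s.re := hs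
  have hb0 : σ₀ < (σ₀ + s.re) / 2 := by linarith
  have hU : IsOpen {z : ℂ | (σ₀ + s.re) / 2 < z.re} := isOpen_lt continuous_const Complex.continuous_re
  have hsU : s ∈ {z : ℂ | (σ₀ + s.re) / 2 < z.re} := by
    change (σ₀ + s.re) / 2 < s.re
    linarith
  have h1 := Summable.hasProdLocallyUniformlyOn_one_add (f := fun i z => f i z - 1) hU (hu _ hb0)
    (Filter.Eventually.of_forall fun i z hz => hb _ hb0 z (le_of_lt hz) i)
    (fun i z hz => ((hd i z (hb0.trans hz)).continuousAt.sub continuousAt_const).continuousWithinAt)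
  simp only [add_sub_cancel] at h1
  rw [hasProdLocallyUniformlyOn_iff_tendstoLocallyUniformlyOn] at h1
  have h2 := h1.differentiableOn (Filter.Eventually.of_forall fun t z hz => by
    refine DifferentiableAt.differentiableWithinAt ?_
    exact DifferentiableAt.fun_finsetProd fun i _ => hd i z (hb0.trans hz)) hU
  exact (h2.differentiableAt (hU.mem_nhds hsU)).differentiableWithinAt

private theorem gfin_LT {K : Type} [Field K] [NumberField K] {T : Finset ℕ}
    (hT : ∀ p : ℕ, p.Prime → p < 101 → p ∈ T) {a : ℕ → ℝ}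
    (ha : ∀ q : ℕ, |a q| ≤ 2 * Real.sqrt q) :
    DifferentiableOn ℂ (LT K a T) {s : ℂ | 3 / 2 < s.re} := by
  have h := gfin_diff (σ₀ := 3 / 2)
    (f := fun (v : {v : HeightOneSpectrum (𝓞 K) // Away K T v}) s => efac a (nrm v.1) s)
    (u := fun b v => 3 * (nrm v.1 : ℝ) ^ (1 / 2 - b)) ?_ ?_ ?_
  · exact h
  · intro b hb
    have h2 := ((summable_nrm K (x := b - 1 / 2) (by linarith)).comp_injective
      (Subtype.val_injective (p := fun w => Away K T w))).mul_left 3
    refine h2.congr fun v => ?_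
    have h4 : (1 / 2 - b : ℝ) = -(b - 1 / 2) := by ring
    rw [h4]
    rfl
  · intro b hb s hs v
    refine (efac_sub_one ha (nrm_ge K T hT v.1 v.2) (by linarith)).trans ?_
    have h0 := nrm_ge K T hT v.1 v.2
    have h1 : (1 : ℝ) ≤ nrm v.1 := by exact_mod_cast (by omega : 1 ≤ nrm v.1)
    have h2 := Real.rpow_le_rpow_of_exponent_le h1 (show 1 / 2 - s.re ≤ 1 / 2 - b by linarith)
    linarith
  · intro v s hs
    exact efac_diff ha (nrm_ge K T hT v.1 v.2) (by linarith)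

private theorem gfin_Lam (hT : ∀ p : ℕ, p.Prime → p < 101 → p ∈ T)
    (ha : ∀ q : ℕ, |a q| ≤ 2 * Real.sqrt q) :
    DifferentiableOn ℂ (D.Lam a F) {s : ℂ | 3 / 2 < s.re} := by
  have hA : ((D.A F : ℝ) : ℂ) ≠ 0 := by exact_mod_cast (Pool.Agent.H73.AL.A_pos D F).ne'
  intro s hs
  have hs' : 3 / 2 < s.re := hs
  have h1 : DifferentiableWithinAt ℂ (fun s : ℂ => ((D.A F : ℝ) : ℂ) ^ (s / 2))
      {s : ℂ | 3 / 2 < s.re} s :=
    ((differentiableAt_id.div_const 2).const_cpow (Or.inl hA)).differentiableWithinAt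
  have h2 : DifferentiableWithinAt ℂ (fun s : ℂ => gam1 s ^ Module.finrank ℚ F)
      {s : ℂ | 3 / 2 < s.re} s :=
    ((gam1_diff (by linarith : 0 < s.re)).pow _).differentiableWithinAt
  have h3 : DifferentiableWithinAt ℂ (fun s : ℂ => LT F a T s / D.pl F s)
      {s : ℂ | 3 / 2 < s.re} s :=
    (gfin_LT hT ha s hs).div (Pool.Agent.QD.In.pl_diff D F s).differentiableWithinAt
      (Pool.Agent.QD.In.pl_ne D F hs'.le)
  exact (h1.mul h2).mul h3

private theorem gfin_cont (hT : ∀ p : ℕ, p.Prime → p < 101 → p ∈ T)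
    (ha : ∀ q : ℕ, |a q| ≤ 2 * Real.sqrt q) {s : ℂ} (hs : 3 / 2 < s.re) :
    ContinuousAt (D.Lam a F) s :=
  ((gfin_Lam D hT ha).differentiableAt
    ((isOpen_lt continuous_const Complex.continuous_re).mem_nhds hs)).continuousAt

end

/-- the zeros of an entire function are isolated -/
private theorem gfin_ne {Q : ℂ → ℂ} (hQ : Differentiable ℂ Q) (h0 : ∃ s, Q s ≠ 0) (z : ℂ) :
    ∀ᶠ w in nhdsWithin z {z}ᶜ, Q w ≠ 0 := by
  rcases (hQ.analyticAt z).eventually_eq_zero_or_eventually_ne_zero with h | h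
  · exfalso
    obtain ⟨s, hs⟩ := h0
    have h1 : Q = fun _ => (0 : ℂ) := by
      refine AnalyticOnNhd.eq_of_eventuallyEq (z₀ := z) (fun w _ => hQ.analyticAt w)
        (fun w _ => analyticAt_const) ?_
      exact h
    exact hs (congrFun h1 s)
  · exact h

theorem hw_of_poleLe {T : Finset ℕ} (D : LocData T) {a : ℕ → ℝ}
    (hT : ∀ p : ℕ, p.Prime → p < 101 → p ∈ T) (ha : ∀ q : ℕ, |a q| ≤ 2 * Real.sqrt q)
    {F : Type} [Field F] [NumberField F] {Q : ℂ → ℂ} (hQ : IsAdm Q) (h : HWG D a Q F)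
    (h0 : ∀ z : ℂ, PoleLe D a Q F z 0) : D.HW a F := by
  obtain ⟨G, hGd, hGo, hGe, hGf⟩ := h
  have hQ0 := hQ.ne
  obtain ⟨L, hLd, hL⟩ := entire_quot hGd hQ.diff hQ0 fun z => by
    have h1 := h0 z G ⟨hGd, hGe⟩
    simpa using h1
  have hLo : FinOrd L := finOrd_quot_fo hGd ⟨hQ.diff, hQ.ne, hQ.ord⟩ hLd hGo hL
  have hsub : Differentiable ℂ fun s : ℂ => 2 - s := (differentiable_const 2).sub differentiable_id
  refine ⟨L, hLd, hLo, fun s => ?_, fun s hs => ?_⟩
  · have hQ2 : ∃ s, Q (2 - s) ≠ 0 := by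
      obtain ⟨s, hs⟩ := hQ0
      exact ⟨2 - s, by rwa [sub_sub_cancel]⟩
    have h1 : L =ᶠ[nhdsWithin s {s}ᶜ] fun u => D.w F * L (2 - u) := by
      filter_upwards [gfin_ne hQ.diff hQ0 s, gfin_ne (hQ.diff.comp hsub) hQ2 s] with u hu hu'
      have hu2 : Q (2 - u) ≠ 0 := hu'
      have h2 := hGf u
      rw [hL u, hL (2 - u)] at h2
      refine mul_left_cancel₀ (mul_ne_zero hu hu2) ?_
      linear_combination h2
    have h3 : ContinuousAt (fun u => D.w F * L (2 - u)) s :=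
      (continuous_const.mul (hLd.continuous.comp hsub.continuous)).continuousAt
    exact ((hLd.continuous.continuousAt.eventuallyEq_nhds_iff_eventuallyEq_nhdsNE h3).1
      h1).eq_of_nhds
  · have h1 : L =ᶠ[nhdsWithin s {s}ᶜ] D.Lam a F := by
      have h2 : {u : ℂ | 3 / 2 < u.re} ∈ nhds s :=
        (isOpen_lt continuous_const Complex.continuous_re).mem_nhds hs
      filter_upwards [mem_nhdsWithin_of_mem_nhds h2, gfin_ne hQ.diff hQ0 s] with u hu hu'
      have h3 := hGe u hu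
      rw [hL u] at h3
      exact mul_left_cancel₀ hu' h3
    exact ((hLd.continuous.continuousAt.eventuallyEq_nhds_iff_eventuallyEq_nhdsNE
      (gfin_cont D hT ha hs)).1 h1).eq_of_nhds

end Pool.Agent.UPQ
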