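import Pool.Agent.UPQ.K.Defs

/-!
# UPQ/G-Defs: general multipliers `Q`
-/

namespace Pool.Agent.UPQ

open NumberField IsDedekindDomain Pool.Agent.HWR Pool.Agent.QD Pool.Agent.QD.In Pool.Agent.LD
  Pool.Agent.MD Pool.Agent.THF

/-- the multipliers: entire functions of finite order, not identically zero -/
structure IsAdm (Q : ℂ → ℂ) : Prop where
  diff : Differentiable ℂ Q
  ne : ∃ s : ℂ, Q s ≠ 0
  ord : ∃ c C : ℝ, ∀ s : ℂ, ‖Q s‖ ≤ Real.exp (C * (1 + ‖s‖) ^ c)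

section

variable {T : Finset ℕ} (D : LocData T) (a : ℕ → ℝ)

/-- Hasse-Weil up to poles at the zeros of `Q` -/
def HWG (Q : ℂ → ℂ) (F : Type) [Field F] [NumberField F] : Prop :=
  ∃ G : ℂ → ℂ, Differentiable ℂ G ∧ FinOrd G ∧
    (∀ s : ℂ, 3 / 2 < s.re → G s = Q s * D.Lam a F s) ∧
    ∀ s : ℂ, G s * Q (2 - s) = D.w F * (G (2 - s) * Q s)

/-- `HWG` for the field and all its towers of at most `n` quadratic extensions -/
def TowG (Q : ℂ → ℂ) : ℕ → ∀ (F : Type) [Field F] [NumberField F], Prop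
  | 0, F, _, _ => HWG D a Q F
  | n + 1, F, _, _ => HWG D a Q F ∧ ∀ (L : Type) [Field L] [NumberField L] [Algebra F L],
      Module.finrank F L = 2 → TowG Q n L

/-- `Q * Lam` is entire, with the functional equation of sign `κ w` (for `Q (2 - s) = κ Q s`) -/
def HWS (κ : ℂ) (Q : ℂ → ℂ) (F : Type) [Field F] [NumberField F] : Prop :=
  ∃ A : ℂ → ℂ, Differentiable ℂ A ∧ FinOrd A ∧ (∀ s : ℂ, A s = κ * D.w F * A (2 - s)) ∧
    ∀ s : ℂ, 3 / 2 < s.re → A s = Q s * D.Lam a F s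

/-- `G` is the continuation of `Q * Lam` -/
def IsG (Q : ℂ → ℂ) (F : Type) [Field F] [NumberField F] (G : ℂ → ℂ) : Prop :=
  Differentiable ℂ G ∧ ∀ s : ℂ, 3 / 2 < s.re → G s = Q s * D.Lam a F s

/-- the order of the pole of `Lam = G / Q` at `z` is at most `m` -/
def PoleLe (Q : ℂ → ℂ) (F : Type) [Field F] [NumberField F] (z : ℂ) (m : ℕ) : Prop :=
  ∀ G : ℂ → ℂ, IsG D a Q F G → analyticOrderAt Q z ≤ analyticOrderAt G z + m

end

end Pool.Agent.UPQ
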