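import Pool.Agent.UPQ.G.Sig
import Pool.Agent.QD.In.Strip
import Pool.Agent.QD.In.Gam

/-!
# UPQ/G-Fac: the functions `Qf`, `P`, `R` for a point `z` and a pole order `k`

`Q2 s = Q (2 - s)`, `Q1 s = Q s * Q2 s * sig z s ^ (2k)`, of order `M = mq + mr + 2k` at `z` and at `2 - z`, where `mq`, `mr` are the orders of `Q` at `z`, `2 - z`; `e = mq + mr + 1`; `Q1 = sig ^ e * Qf`, `Q1 s = (s - z) ^ M * H s`, `R s = (s - z) ^ k * H s`, `P s = (s - z) * H s * rho z s ^ e`.
-/

namespace Pool.Agent.UPQ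

open Pool.Agent.QD Pool.Agent.QD.In Pool.Agent.LD Pool.Agent.MD Pool.Agent.THF
open Pool.Agent.HWR (FinOrd)

private theorem fac_fin {f : ℂ → ℂ} (hf : Differentiable ℂ f) (h0 : ∃ s, f s ≠ 0) (w : ℂ) :
    analyticOrderAt f w ≠ ⊤ := by
  intro h
  obtain ⟨s, hs⟩ := h0
  have h1 := (AnalyticOnNhd.analyticOrderAt_eq_top_iff_eq_zero w (fun z₀ => hf.analyticAt z₀)).1 h
  exact hs (congrFun h1 s)

private theorem fac_cancel {f g h : ℂ → ℂ} (hf : Differentiable ℂ f) (h0 : ∃ s, f s ≠ 0)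
    (hg : Differentiable ℂ g) (hh : Differentiable ℂ h) (H : ∀ s, f s * g s = f s * h s) (s : ℂ) :
    g s = h s := by
  rcases (hf.analyticAt s).eventually_eq_zero_or_eventually_ne_zero with h1 | h1
  · exact absurd (analyticOrderAt_eq_top.2 h1) (fac_fin hf h0 s)
  · have h2 : ∀ᶠ w in nhdsWithin s {s}ᶜ, g w = h w := by
      filter_upwards [h1] with w hw
      exact mul_left_cancel₀ hw (H w)
    have h3 : Filter.Tendsto g (nhdsWithin s {s}ᶜ) (nhds (g s)) :=
      (hg.continuous.continuousAt (x := s)).mono_left nhdsWithin_le_nhds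
    have h4 : Filter.Tendsto h (nhdsWithin s {s}ᶜ) (nhds (h s)) :=
      (hh.continuous.continuousAt (x := s)).mono_left nhdsWithin_le_nhds
    exact tendsto_nhds_unique (h3.congr' h2) h4

private theorem fac_mul {f g : ℂ → ℂ} (hf : Differentiable ℂ f) (hg : Differentiable ℂ g) (w : ℂ) :
    analyticOrderAt (fun s => f s * g s) w = analyticOrderAt f w + analyticOrderAt g w :=
  analyticOrderAt_mul (hf.analyticAt w) (hg.analyticAt w)

private theorem fac_pow {f : ℂ → ℂ} (hf : Differentiable ℂ f) (n : ℕ) (w : ℂ) :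
    analyticOrderAt (fun s => f s ^ n) w = n * analyticOrderAt f w := by
  have h := analyticOrderAt_pow (hf.analyticAt w) n
  rw [nsmul_eq_mul] at h
  exact h

private theorem fac_refl (f : ℂ → ℂ) (w : ℂ) :
    analyticOrderAt (fun s => f (2 - s)) w = analyticOrderAt f (2 - w) := by
  have h1 : AnalyticAt ℂ (fun s : ℂ => 2 - s) w := by fun_prop
  have h2 : deriv (fun s : ℂ => 2 - s) w ≠ 0 := by
    rw [deriv_const_sub, deriv_id'']
    norm_num
  exact analyticOrderAt_comp_of_deriv_ne_zero (f := f) h1 h2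

private theorem fac_lin (z : ℂ) : Differentiable ℂ fun s : ℂ => s - z := by fun_prop

private theorem fac_lin_ord (z : ℂ) (n : ℕ) : analyticOrderAt (fun s : ℂ => (s - z) ^ n) z = n := by
  rw [fac_pow (fac_lin z)]
  have h : analyticOrderAt (fun s : ℂ => s - z) z = 1 := analyticOrderAt_id_sub_const_self
  rw [h, mul_one]

private theorem fac_lin_ord' {z w : ℂ} (h : w ≠ z) (n : ℕ) :
    analyticOrderAt (fun s : ℂ => (s - z) ^ n) w = 0 := by
  rw [analyticOrderAt_eq_zero]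
  right
  exact pow_ne_zero _ (sub_ne_zero.2 h)

private theorem fac_quot {f : ℂ → ℂ} (hf : Differentiable ℂ f) (z : ℂ) (n : ℕ)
    (h : (n : ℕ∞) ≤ analyticOrderAt f z) :
    ∃ g : ℂ → ℂ, Differentiable ℂ g ∧ ∀ s, f s = (s - z) ^ n * g s := by
  refine entire_quot hf ((fac_lin z).pow n) ⟨z + 1, ?_⟩ fun w => ?_
  · rw [add_sub_cancel_left, one_pow]
    exact one_ne_zero
  · rcases eq_or_ne w z with rfl | hw
    · exact (fac_lin_ord w n).le.trans h
    · exact (fac_lin_ord' hw n).le.trans zero_le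

private theorem fac_strip {F : ℂ → ℂ} (h : ∀ c : ℝ, PolyStrip c F) : FinOrd F := by
  intro a b
  obtain ⟨A, C, hA, hC, h1⟩ := h (b + 1) a b (by linarith)
  refine ⟨A, C, fun s hs1 hs2 => (h1 s hs1 hs2).trans ?_⟩
  have h2 := Real.add_one_le_exp (C * (1 + |s.im|) ^ A)
  linarith

private theorem fac_poly_refl {F : ℂ → ℂ} (h : ∀ c : ℝ, PolyStrip c F) (c : ℝ) :
    PolyStrip c fun s => F (2 - s) := by
  intro a b _
  obtain ⟨A, C, hA, hC, h1⟩ := h (2 - a + 1) (2 - b) (2 - a) (by linarith)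
  refine ⟨A, C, hA, hC, fun s hs1 hs2 => ?_⟩
  have h2 := h1 (2 - s) (by rw [Complex.sub_re]; norm_num; linarith)
    (by rw [Complex.sub_re]; norm_num; linarith)
  have h3 : |(2 - s).im| = |s.im| := by
    rw [Complex.sub_im, show (2 : ℂ).im = 0 from rfl, zero_sub, abs_neg]
  rw [h3] at h2
  exact h2

private theorem fac_ar (x : ℕ∞) {p q r t : ℕ} (h : (p : ℕ∞) ≤ x + (q : ℕ∞))
    (hqt : ∀ y : ℕ, p ≤ y + q → r ≤ y + t) : (r : ℕ∞) ≤ x + (t : ℕ∞) := by
  induction x using ENat.recTopCoe with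
  | top => simp
  | coe y =>
    have h1 : p ≤ y + q := by exact_mod_cast h
    exact_mod_cast hqt y h1

theorem fac {Q : ℂ → ℂ} (hQ : IsMul Q) {z : ℂ} (h1 : 1 ≤ z.re) (h2 : z.re ≤ 3 / 2) {k : ℕ}
    (hk : 1 ≤ k) :
    ∃ (κ : ℂ) (Qf P R : ℂ → ℂ), (κ = 1 ∨ κ = -1) ∧ IsMul Qf ∧ Differentiable ℂ P ∧
      (∀ s : ℂ, P s * Qf s = R s ^ 2) ∧ P z = 0 ∧ (∀ s : ℂ, Qf (2 - s) = κ * Qf s) ∧
      (∀ G : ℂ → ℂ, Differentiable ℂ G → FinOrd G →
        analyticOrderAt Q z ≤ analyticOrderAt G z + ((2 * k - 1 : ℕ) : ℕ∞) →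
        analyticOrderAt Q (2 - z) ≤ analyticOrderAt G (2 - z) + ((2 * k - 1 : ℕ) : ℕ∞) →
        ∃ A : ℂ → ℂ, Differentiable ℂ A ∧ FinOrd A ∧ ∀ s : ℂ, Q s * A s = Qf s * G s) ∧
      ∀ G : ℂ → ℂ, Differentiable ℂ G →
        analyticOrderAt Q z ≤ analyticOrderAt G z + (k : ℕ∞) →
        ∃ A : ℂ → ℂ, Differentiable ℂ A ∧ (∀ s : ℂ, Q s * A s = R s * G s) ∧
          (A z = 0 → analyticOrderAt Q z ≤ analyticOrderAt G z + ((k - 1 : ℕ) : ℕ∞)) := by
  obtain ⟨κ0, hκ0, hsym⟩ := sig_sym z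
  obtain ⟨mq, hmq⟩ := ENat.ne_top_iff_exists.1 (fac_fin hQ.diff hQ.ne z)
  obtain ⟨mr, hmr⟩ := ENat.ne_top_iff_exists.1 (fac_fin hQ.diff hQ.ne (2 - z))
  have hQ2d : Differentiable ℂ fun s => Q (2 - s) :=
    hQ.diff.comp (differentiable_id.const_sub 2)
  have hQ2z : analyticOrderAt (fun s => Q (2 - s)) z = (mr : ℕ∞) := by rw [fac_refl, hmr]
  have hQ2w : analyticOrderAt (fun s => Q (2 - s)) (2 - z) = (mq : ℕ∞) := by
    rw [fac_refl, sub_sub_cancel, hmq]
  have hsd := sig_diff z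
  obtain ⟨hsz, hsw⟩ := sig_ord z
  -- `Q1`
  set Q1 : ℂ → ℂ := fun s => Q s * Q (2 - s) * sig z s ^ (2 * k) with hQ1
  have dq : Differentiable ℂ fun s => Q s * Q (2 - s) := hQ.diff.mul hQ2d
  have ds : ∀ n : ℕ, Differentiable ℂ fun s => sig z s ^ n := fun n => hsd.pow n
  have dl : ∀ n : ℕ, Differentiable ℂ fun s : ℂ => (s - z) ^ n := fun n => (fac_lin z).pow n
  have dt : Differentiable ℂ fun s => Q (2 - s) * sig z s ^ (2 * k) := hQ2d.mul (ds _)
  have hQ1d : Differentiable ℂ Q1 := dq.mul (ds _)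
  have hQ1z : analyticOrderAt Q1 z = ((mq + mr + 2 * k : ℕ) : ℕ∞) := by
    rw [hQ1, fac_mul dq (ds (2 * k)) z, fac_pow hsd, hsz]
    have h3 := fac_mul hQ.diff hQ2d z
    rw [h3, ← hmq, hQ2z]
    push_cast
    ring
  have hQ1w : analyticOrderAt Q1 (2 - z) = ((mq + mr + 2 * k : ℕ) : ℕ∞) := by
    rw [hQ1, fac_mul dq (ds (2 * k)) (2 - z), fac_pow hsd, hsw]
    have h3 := fac_mul hQ.diff hQ2d (2 - z)
    rw [h3, ← hmr, hQ2w]
    push_cast
    ring
  have hQ1p : ∀ c : ℝ, PolyStrip c Q1 := fun c =>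
    ps_mul (ps_mul (hQ.bd c) (fac_poly_refl hQ.bd c)) (ps_pow (sig_poly z c) _)
  have hQ1s : ∀ s, Q1 (2 - s) = Q1 s := by
    intro s
    have h3 : κ0 ^ (2 * k) = 1 := by
      rcases hκ0 with h | h <;> rw [h, pow_mul] <;> norm_num
    rw [hQ1]
    simp only
    rw [sub_sub_cancel, hsym, mul_pow, h3, one_mul, mul_comm (Q (2 - s)) (Q s)]
  have hQ1ne : ∃ s, Q1 s ≠ 0 := by
    by_contra hcon
    push Not at hcon
    have h3 : analyticOrderAt Q1 z = ⊤ :=
      analyticOrderAt_eq_top.2 (Filter.Eventually.of_forall hcon)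
    rw [hQ1z] at h3
    exact ENat.natCast_ne_top _ h3
  have hsne : ∀ n : ℕ, ∃ s, sig z s ^ n ≠ 0 := by
    intro n
    by_contra hcon
    push Not at hcon
    have h3 : analyticOrderAt (fun s => sig z s ^ n) z = ⊤ :=
      analyticOrderAt_eq_top.2 (Filter.Eventually.of_forall hcon)
    rw [fac_pow hsd, hsz, mul_one] at h3
    exact ENat.natCast_ne_top _ h3
  have hlne : ∀ n : ℕ, ∃ s : ℂ, (s - z) ^ n ≠ 0 := fun n => ⟨z + 1, by
    rw [add_sub_cancel_left, one_pow]
    exact one_ne_zero⟩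
  -- `Qf`
  obtain ⟨Qf, hQfd, hQfe, hQfp, -⟩ := div_sig h1 h2 hQ1d (e := mq + mr + 1)
    (by rw [hQ1z]; exact_mod_cast (by omega : mq + mr + 1 ≤ mq + mr + 2 * k))
    (by rw [hQ1w]; exact_mod_cast (by omega : mq + mr + 1 ≤ mq + mr + 2 * k))
  have hQfb := hQfp hQ1p
  have hQfne : ∃ s, Qf s ≠ 0 := by
    obtain ⟨s, hs⟩ := hQ1ne
    exact ⟨s, fun h => hs (by rw [hQfe, h, mul_zero])⟩
  have hQfs : ∀ s, Qf (2 - s) = κ0 ^ (mq + mr + 1) * Qf s := by
    have hκ2 : κ0 ^ (mq + mr + 1) * κ0 ^ (mq + mr + 1) = 1 := by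
      rw [← mul_pow]
      rcases hκ0 with h | h <;> rw [h] <;> norm_num
    have h3 : ∀ s, κ0 ^ (mq + mr + 1) * Qf (2 - s) = Qf s := by
      refine fac_cancel (ds (mq + mr + 1)) (hsne _)
        ((hQfd.comp (differentiable_id.const_sub 2)).const_mul _) hQfd fun s => ?_
      show sig z s ^ (mq + mr + 1) * (κ0 ^ (mq + mr + 1) * Qf (2 - s)) =
        sig z s ^ (mq + mr + 1) * Qf s
      rw [← hQfe s, ← hQ1s s, hQfe (2 - s), hsym, mul_pow]
      ring
    intro s
    rw [← h3 s, ← mul_assoc, hκ2, one_mul]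
  -- `H`
  obtain ⟨H, hHd, hHe⟩ := fac_quot hQ1d z (mq + mr + 2 * k) hQ1z.ge
  have hrd := rho_diff z
  have hPd : Differentiable ℂ fun s => (s - z) * H s * rho z s ^ (mq + mr + 1) :=
    ((fac_lin z).mul hHd).mul (hrd.pow _)
  refine ⟨κ0 ^ (mq + mr + 1), Qf, fun s => (s - z) * H s * rho z s ^ (mq + mr + 1),
    fun s => (s - z) ^ k * H s, ?_, ⟨hQfd, hQfb, hQfne⟩, hPd, ?_, ?_, hQfs, ?_, ?_⟩
  · rcases hκ0 with h | h
    · left
      rw [h, one_pow]
    · rw [h]
      exact neg_one_pow_eq_or ℂ _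
  · refine fac_cancel (ds (mq + mr + 1)) (hsne _) (hPd.mul hQfd)
      ((((fac_lin z).pow k).mul hHd).pow 2) fun s => ?_
    show sig z s ^ (mq + mr + 1) * ((s - z) * H s * rho z s ^ (mq + mr + 1) * Qf s) =
      sig z s ^ (mq + mr + 1) * ((s - z) ^ k * H s) ^ 2
    have h3 : sig z s ^ (mq + mr + 1) * ((s - z) * H s * rho z s ^ (mq + mr + 1) * Qf s) =
        (s - z) * H s * rho z s ^ (mq + mr + 1) * Q1 s := by
      rw [hQfe s]
      ring
    rw [h3, hHe s]
    unfold sig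
    generalize s - z = u
    ring
  · show (z - z) * H z * rho z z ^ (mq + mr + 1) = 0
    rw [sub_self, zero_mul, zero_mul]
  · intro G hG hGo hz1 hz2
    have hfd : Differentiable ℂ fun s => Q (2 - s) * sig z s ^ (2 * k) * G s :=
      dt.mul hG
    have ho : ∀ w, analyticOrderAt (fun s => Q (2 - s) * sig z s ^ (2 * k) * G s) w =
        analyticOrderAt (fun s => Q (2 - s)) w + (2 * k : ℕ) * analyticOrderAt (sig z) w +
          analyticOrderAt G w := by
      intro w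
      rw [fac_mul dt hG w]
      have h3 := fac_mul hQ2d (ds (2 * k)) w
      rw [h3, fac_pow hsd]
    obtain ⟨A, hAd, hAe, -, hAo⟩ := div_sig h1 h2 hfd (e := mq + mr + 1) (by
        rw [ho, hQ2z, hsz, mul_one, ← hmq] at *
        have h3 := fac_ar (analyticOrderAt G z) (r := mq + mr + 1) (t := mr + 2 * k) hz1
          (fun y hy => by omega)
        refine h3.trans (le_of_eq ?_)
        push_cast
        ring) (by
        rw [ho, hQ2w, hsw, mul_one]
        rw [← hmr] at hz2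
        have h3 := fac_ar (analyticOrderAt G (2 - z)) (r := mq + mr + 1) (t := mq + 2 * k) hz2
          (fun y hy => by omega)
        refine h3.trans (le_of_eq ?_)
        push_cast
        ring)
    refine ⟨A, hAd, hAo ?_, ?_⟩
    · have h3 : FinOrd Q := fac_strip hQ.bd
      have h4 : FinOrd fun s => Q (2 - s) := by
        have h5 := finOrd_comp Q h3 2
        refine fun a b => ?_
        obtain ⟨A', C', h6⟩ := h5 a b
        exact ⟨A', C', fun s hs1 hs2 => by
          have h7 := h6 s hs1 hs2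
          simpa using h7⟩
      exact finOrd_mul (finOrd_mul h4 (finOrd_pow (fac_strip (sig_poly z)) _)) hGo
    · refine fac_cancel (ds (mq + mr + 1)) (hsne _) (hQ.diff.mul hAd) (hQfd.mul hG) fun s => ?_
      show sig z s ^ (mq + mr + 1) * (Q s * A s) = sig z s ^ (mq + mr + 1) * (Qf s * G s)
      have h3 := hAe s
      have h4 := hQfe s
      rw [hQ1] at h4
      simp only at h4
      linear_combination (-Q s) * h3 + G s * h4
  · intro G hG hz
    have dg : Differentiable ℂ fun s => Q (2 - s) * sig z s ^ (2 * k) * G s := dt.mul hG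
    have hfd : Differentiable ℂ fun s => (s - z) ^ k * (Q (2 - s) * sig z s ^ (2 * k) * G s) :=
      (dl k).mul dg
    have ho : analyticOrderAt (fun s => (s - z) ^ k * (Q (2 - s) * sig z s ^ (2 * k) * G s)) z =
        analyticOrderAt G z + ((k + mr + 2 * k : ℕ) : ℕ∞) := by
      rw [fac_mul (dl k) dg z]
      have h3 := fac_mul dt hG z
      have h4 := fac_mul hQ2d (ds (2 * k)) z
      have h5 : analyticOrderAt (fun s => Q (2 - s) * sig z s ^ (2 * k) * G s) z =
          (mr : ℕ∞) + (2 * k : ℕ) * 1 + analyticOrderAt G z := by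
        rw [h3, h4, fac_pow hsd, hsz, hQ2z]
      have h6 := fac_lin_ord z k
      rw [h6, h5]
      push_cast
      ring
    rw [← hmq] at hz ⊢
    obtain ⟨A, hAd, hAe⟩ := fac_quot hfd z (mq + mr + 2 * k) (by
      rw [ho]
      exact fac_ar (analyticOrderAt G z) hz (fun y hy => by omega))
    refine ⟨A, hAd, ?_, ?_⟩
    · refine fac_cancel (dl (mq + mr + 2 * k)) (hlne _) (hQ.diff.mul hAd)
        ((((fac_lin z).pow k).mul hHd).mul hG) fun s => ?_
      show (s - z) ^ (mq + mr + 2 * k) * (Q s * A s) =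
        (s - z) ^ (mq + mr + 2 * k) * ((s - z) ^ k * H s * G s)
      have h3 := hAe s
      have h4 := hHe s
      rw [hQ1] at h4
      simp only at h3 h4
      linear_combination (-Q s) * h3 + (s - z) ^ k * G s * h4
    · intro hA0
      have h3 : (1 : ℕ∞) ≤ analyticOrderAt A z := by
        rw [Order.one_le_iff_ne_zero]
        exact (hAd.analyticAt z).analyticOrderAt_ne_zero.2 hA0
      have h4 : analyticOrderAt (fun s => (s - z) ^ k * (Q (2 - s) * sig z s ^ (2 * k) * G s)) z =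
          ((mq + mr + 2 * k : ℕ) : ℕ∞) + analyticOrderAt A z := by
        have h5 : (fun s => (s - z) ^ k * (Q (2 - s) * sig z s ^ (2 * k) * G s)) =
            fun s => (s - z) ^ (mq + mr + 2 * k) * A s := funext hAe
        rw [h5, fac_mul (dl _) hAd z]
        have h6 := fac_lin_ord z (mq + mr + 2 * k)
        rw [h6]
      rw [ho] at h4
      have h5 : ((mq + mr + 2 * k + 1 : ℕ) : ℕ∞) ≤
          analyticOrderAt G z + ((k + mr + 2 * k : ℕ) : ℕ∞) := by
        rw [h4, Nat.cast_add, Nat.cast_one]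
        gcongr
      exact fac_ar (analyticOrderAt G z) h5 (fun y hy => by omega)

end Pool.Agent.UPQ
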