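import Pool.Agent.UPQ.G.Defs
import Pool.Agent.UPQ.C.EntB

/-!
# UPQ/G-Ord: pole orders

Uniqueness of the continuation `G` of `Q * Lam` (`isG_unique`, identity theorem), and the pole orders of
`Lam = G / Q`: monotonicity, reflection `z ↦ 2 - z` by the functional equation (`poleLe_refl`: compare the orders at
`z` of both sides of `G s * Q (2 - s) = w * (G (2 - s) * Q s)`), and no poles in `Re z > 3/2` (`poleLe_right`).
-/

namespace Pool.Agent.UPQ

open NumberField IsDedekindDomain Pool.Agent.HWR Pool.Agent.QD Pool.Agent.QD.In Pool.Agent.LD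
  Pool.Agent.MD Pool.Agent.THF

variable {T : Finset ℕ} (D : LocData T) {a : ℕ → ℝ} {F : Type} [Field F] [NumberField F]

private theorem ord_diff {ι : Type} {f : ι → ℂ → ℂ} {σ₀ : ℝ} {u : ℝ → ι → ℝ}
    (hu : ∀ b, σ₀ < b → Summable (u b))
    (hb : ∀ b, σ₀ < b → ∀ s : ℂ, b ≤ s.re → ∀ i, ‖f i s - 1‖ ≤ u b i)
    (hd : ∀ i (s : ℂ), σ₀ < s.re → DifferentiableAt ℂ (f i) s) :
    DifferentiableOn ℂ (fun s => ∏' i, f i s) {s : ℂ | σ₀ < s.re} := by
  intro s hs
  have hs' : σ₀ < s.re := hs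
  have hb0 : σ₀ < (σ₀ + s.re) / 2 := by linarith
  have hU : IsOpen {z : ℂ | (σ₀ + s.re) / 2 < z.re} := isOpen_lt continuous_const Complex.continuous_re
  have hsU : s ∈ {z : ℂ | (σ₀ + s.re) / 2 < z.re} := by
    change (σ₀ + s.re) / 2 < s.re
    linarith
  have h1 := Summable.hasProdLocallyUniformlyOn_one_add (f := fun i z => f i z - 1) hU (hu _ hb0)
    (Filter.Eventually.of_forall fun i z hz => hb _ hb0 z (le_of_lt hz) i)
    (fun i z hz => ((hd i z (hb0.trans hz)).continuousAt.sub continuousAt_const).continuousWithinAt)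
  simp only [add_sub_cancel] at h1
  rw [hasProdLocallyUniformlyOn_iff_tendstoLocallyUniformlyOn] at h1
  have h2 := h1.differentiableOn (Filter.Eventually.of_forall fun t z hz => by
    refine DifferentiableAt.differentiableWithinAt ?_
    exact DifferentiableAt.fun_finsetProd fun i _ => hd i z (hb0.trans hz)) hU
  exact (h2.differentiableAt (hU.mem_nhds hsU)).differentiableWithinAt

private theorem ord_LT {K : Type} [Field K] [NumberField K] {T : Finset ℕ}
    (hT : ∀ p : ℕ, p.Prime → p < 101 → p ∈ T) {a : ℕ → ℝ}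
    (ha : ∀ q : ℕ, |a q| ≤ 2 * Real.sqrt q) :
    DifferentiableOn ℂ (LT K a T) {s : ℂ | 3 / 2 < s.re} := by
  have h := ord_diff (σ₀ := 3 / 2)
    (f := fun (v : {v : HeightOneSpectrum (𝓞 K) // Away K T v}) s => efac a (nrm v.1) s)
    (u := fun b v => 3 * (nrm v.1 : ℝ) ^ (1 / 2 - b)) ?_ ?_ ?_
  · exact h
  · intro b hb
    have h2 := ((summable_nrm K (x := b - 1 / 2) (by linarith)).comp_injective
      (Subtype.val_injective (p := fun w => Away K T w))).mul_left 3
    refine h2.congr fun v => ?_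
    have h4 : (1 / 2 - b : ℝ) = -(b - 1 / 2) := by ring
    rw [h4]
    rfl
  · intro b hb s hs v
    refine (efac_sub_one ha (nrm_ge K T hT v.1 v.2) (by linarith)).trans ?_
    have h0 := nrm_ge K T hT v.1 v.2
    have h1 : (1 : ℝ) ≤ nrm v.1 := by exact_mod_cast (by omega : 1 ≤ nrm v.1)
    have h2 := Real.rpow_le_rpow_of_exponent_le h1 (show 1 / 2 - s.re ≤ 1 / 2 - b by linarith)
    linarith
  · intro v s hs
    exact efac_diff ha (nrm_ge K T hT v.1 v.2) (by linarith)

private theorem ord_Lam (hT : ∀ p : ℕ, p.Prime → p < 101 → p ∈ T)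
    (ha : ∀ q : ℕ, |a q| ≤ 2 * Real.sqrt q) :
    DifferentiableOn ℂ (D.Lam a F) {s : ℂ | 3 / 2 < s.re} := by
  have hA : ((D.A F : ℝ) : ℂ) ≠ 0 := by exact_mod_cast (Pool.Agent.H73.AL.A_pos D F).ne'
  intro s hs
  have hs' : 3 / 2 < s.re := hs
  have h1 : DifferentiableWithinAt ℂ (fun s : ℂ => ((D.A F : ℝ) : ℂ) ^ (s / 2))
      {s : ℂ | 3 / 2 < s.re} s :=
    ((differentiableAt_id.div_const 2).const_cpow (Or.inl hA)).differentiableWithinAt
  have h2 : DifferentiableWithinAt ℂ (fun s : ℂ => gam1 s ^ Module.finrank ℚ F)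
      {s : ℂ | 3 / 2 < s.re} s :=
    ((gam1_diff (by linarith : 0 < s.re)).pow _).differentiableWithinAt
  have h3 : DifferentiableWithinAt ℂ (fun s : ℂ => LT F a T s / D.pl F s)
      {s : ℂ | 3 / 2 < s.re} s :=
    (ord_LT hT ha s hs).div (Pool.Agent.QD.In.pl_diff D F s).differentiableWithinAt
      (Pool.Agent.QD.In.pl_ne D F hs'.le)
  exact (h1.mul h2).mul h3

private theorem ord_an {f : ℂ → ℂ} (hf : Differentiable ℂ f) (z : ℂ) : AnalyticAt ℂ f z :=
  hf.analyticAt z

private theorem ord_comp (f : ℂ → ℂ) (z : ℂ) :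
    analyticOrderAt (fun s => f (2 - s)) z = analyticOrderAt f (2 - z) := by
  have hg : AnalyticAt ℂ (fun s : ℂ => 2 - s) z := analyticAt_const.sub analyticAt_id
  have hd : HasDerivAt (fun s : ℂ => 2 - s) (-1) z := by
    simpa using (hasDerivAt_id z).const_sub 2
  exact analyticOrderAt_comp_of_deriv_ne_zero (f := f) hg (by
    rw [hd.deriv]
    exact neg_ne_zero.2 one_ne_zero)

theorem isG_unique {Q G G' : ℂ → ℂ} (h : IsG D a Q F G) (h' : IsG D a Q F G') : G = G' := by
  refine AnalyticOnNhd.eq_of_eventuallyEq (z₀ := 2) (fun z _ => ord_an h.1 z)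
    (fun z _ => ord_an h'.1 z) ?_
  have h2 : {u : ℂ | 3 / 2 < u.re} ∈ nhds (2 : ℂ) :=
    (isOpen_lt continuous_const Complex.continuous_re).mem_nhds (by
      change (3 / 2 : ℝ) < (2 : ℂ).re
      norm_num)
  filter_upwards [h2] with s hs
  rw [h.2 s hs, h'.2 s hs]

theorem poleLe_mono {Q : ℂ → ℂ} {z : ℂ} {m m' : ℕ} (hm : m ≤ m') (h : PoleLe D a Q F z m) :
    PoleLe D a Q F z m' := by
  intro G hG
  refine (h G hG).trans ?_
  gcongr

theorem poleLe_refl {Q : ℂ → ℂ} (hQd : Differentiable ℂ Q) (hQ0 : ∃ s, Q s ≠ 0)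
    (h : HWG D a Q F) {z : ℂ} {m : ℕ} (hz : PoleLe D a Q F z m) : PoleLe D a Q F (2 - z) m := by
  obtain ⟨G, h1, -, h3, h4⟩ := h
  intro G' hG'
  have hGG : G' = G := isG_unique D hG' ⟨h1, h3⟩
  rw [hGG]
  by_cases hG0 : G = 0
  · have h5 : analyticOrderAt G (2 - z) = ⊤ :=
      (AnalyticOnNhd.analyticOrderAt_eq_top_iff_eq_zero (2 - z) (fun u => ord_an h1 u)).2 hG0
    rw [h5, top_add]
    exact le_top
  · have hzt : analyticOrderAt G z ≠ ⊤ := fun h5 =>
      hG0 ((AnalyticOnNhd.analyticOrderAt_eq_top_iff_eq_zero z (fun u => ord_an h1 u)).1 h5)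
    have hw : D.w F ≠ 0 := by
      rcases Pool.Agent.H73.AL.w_sq D F with h5 | h5
      · rw [h5]
        exact one_ne_zero
      · rw [h5]
        exact neg_ne_zero.2 one_ne_zero
    have hsub : Differentiable ℂ fun s : ℂ => 2 - s := (differentiable_const _).sub differentiable_id
    have hQ2 : AnalyticAt ℂ (fun s => Q (2 - s)) z := ord_an (hQd.comp hsub) z
    have hG2 : AnalyticAt ℂ (fun s => G (2 - s)) z := ord_an (h1.comp hsub) z
    have e1 : analyticOrderAt (fun s => G s * Q (2 - s)) z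
        = analyticOrderAt G z + analyticOrderAt Q (2 - z) := by
      rw [← ord_comp Q z]
      exact analyticOrderAt_mul (ord_an h1 z) hQ2
    have e2 : analyticOrderAt (fun s => D.w F * (G (2 - s) * Q s)) z
        = analyticOrderAt G (2 - z) + analyticOrderAt Q z := by
      rw [← ord_comp G z]
      have h5 : analyticOrderAt (fun s => G (2 - s) * Q s) z
          = analyticOrderAt (fun s => G (2 - s)) z + analyticOrderAt Q z :=
        analyticOrderAt_mul hG2 (ord_an hQd z)
      have h6 : analyticOrderAt (fun s => D.w F * (G (2 - s) * Q s)) z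
          = analyticOrderAt (fun _ : ℂ => D.w F) z
            + analyticOrderAt (fun s => G (2 - s) * Q s) z :=
        analyticOrderAt_mul analyticAt_const (hG2.mul (ord_an hQd z))
      have h7 : analyticOrderAt (fun _ : ℂ => D.w F) z = 0 :=
        analyticAt_const.analyticOrderAt_eq_zero.2 hw
      rw [h6, h5, h7, zero_add]
    have e3 : (fun s => G s * Q (2 - s)) = fun s => D.w F * (G (2 - s) * Q s) := funext h4
    rw [e3, e2] at e1
    have h8 := hz G ⟨h1, h3⟩
    have h9 : analyticOrderAt G z + analyticOrderAt Q (2 - z)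
        ≤ analyticOrderAt G z + (analyticOrderAt G (2 - z) + m) := by
      rw [← e1]
      calc analyticOrderAt G (2 - z) + analyticOrderAt Q z
          ≤ analyticOrderAt G (2 - z) + (analyticOrderAt G z + m) := by gcongr
        _ = analyticOrderAt G z + (analyticOrderAt G (2 - z) + m) := by ring
    exact (ENat.add_le_add_iff_left hzt).1 h9

theorem poleLe_right (hT : ∀ p : ℕ, p.Prime → p < 101 → p ∈ T)
    (ha : ∀ q : ℕ, |a q| ≤ 2 * Real.sqrt q) {Q : ℂ → ℂ} (hQd : Differentiable ℂ Q) {z : ℂ}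
    (hz : 3 / 2 < z.re) : PoleLe D a Q F z 0 := by
  intro G hG
  have hU : IsOpen {u : ℂ | 3 / 2 < u.re} := isOpen_lt continuous_const Complex.continuous_re
  have hL : AnalyticAt ℂ (D.Lam a F) z :=
    (ord_Lam D hT ha).analyticAt (hU.mem_nhds hz)
  have h1 : G =ᶠ[nhds z] fun s => Q s * D.Lam a F s := by
    filter_upwards [hU.mem_nhds hz] with s hs
    exact hG.2 s hs
  have h2 : analyticOrderAt (fun s => Q s * D.Lam a F s) z
      = analyticOrderAt Q z + analyticOrderAt (D.Lam a F) z :=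
    analyticOrderAt_mul (ord_an hQd z) hL
  rw [analyticOrderAt_congr h1, h2]
  exact le_add_right le_self_add

end Pool.Agent.UPQ
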