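import Pool.Agent.UPQ.A.Defs
import Pool.Agent.QD.F.Quot
import Pool.Agent.QD.F.Growth
import Pool.Agent.QD.In.Strip

/-!
# UPQ/G-Sig: the symmetric linear factor and division by its powers

`sig z s = (s - z) * rho z s`, `rho z s = s - 2 + z` if `z ≠ 1`, `1` if `z = 1`: the simple zeros
`z`, `2 - z`, symmetric under `s ↦ 2 - s` up to sign. `div_sig`: an entire function vanishing to
order `e` at the two points is `sig z ^ e * h` with `h` entire (`entire_quot`), of the same growth:
`‖sig z s‖ ≥ 1` outside two discs of radius `1`, and `finOrd_quot` on the line `Re s = 3`.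
-/

namespace Pool.Agent.UPQ

open Pool.Agent.QD Pool.Agent.LD Pool.Agent.MD Pool.Agent.THF
open Pool.Agent.HWR (FinOrd)

open Classical in
noncomputable def rho (z s : ℂ) : ℂ := if z = 1 then 1 else s - 2 + z

noncomputable def sig (z s : ℂ) : ℂ := (s - z) * rho z s

private theorem gsig_one : rho 1 = fun _ => (1 : ℂ) := by
  funext s
  simp [rho]

private theorem gsig_of_ne {z : ℂ} (hz : z ≠ 1) : rho z = fun s => s - 2 + z := by
  funext s
  simp [rho, hz]

theorem rho_diff (z : ℂ) : Differentiable ℂ (rho z) := by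
  by_cases hz : z = 1
  · subst hz
    rw [gsig_one]
    exact differentiable_const _
  · rw [gsig_of_ne hz]
    fun_prop

theorem sig_diff (z : ℂ) : Differentiable ℂ (sig z) :=
  (differentiable_id.sub_const z).mul (rho_diff z)

theorem rho_ne (z : ℂ) : rho z z ≠ 0 := by
  by_cases hz : z = 1
  · subst hz
    simp [gsig_one]
  · rw [gsig_of_ne hz]
    intro h
    apply hz
    have h1 : (2 : ℂ) * (z - 1) = 0 := by linear_combination h
    rcases mul_eq_zero.1 h1 with h2 | h2
    · norm_num at h2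
    · linear_combination h2

theorem sig_ne {z s : ℂ} (h1 : s ≠ z) (h2 : s ≠ 2 - z) : sig z s ≠ 0 := by
  refine mul_ne_zero (sub_ne_zero.2 h1) ?_
  by_cases hz : z = 1
  · subst hz
    simp [gsig_one]
  · rw [gsig_of_ne hz]
    intro h
    exact h2 (by linear_combination h)

theorem sig_sym (z : ℂ) : ∃ κ : ℂ, (κ = 1 ∨ κ = -1) ∧ ∀ s : ℂ, sig z (2 - s) = κ * sig z s := by
  by_cases hz : z = 1
  · subst hz
    refine ⟨-1, Or.inr rfl, fun s => ?_⟩
    simp only [sig, gsig_one]
    ring
  · refine ⟨1, Or.inl rfl, fun s => ?_⟩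
    simp only [sig, gsig_of_ne hz]
    ring

private theorem gsig_ord {z : ℂ} : analyticOrderAt (sig z) z = 1 := by
  have h := ((sig_diff z).analyticAt z).analyticOrderAt_eq_natCast (n := 1)
  rw [Nat.cast_one] at h
  refine h.2 ⟨rho z, (rho_diff z).analyticAt z, rho_ne z, Filter.Eventually.of_forall fun s => ?_⟩
  simp [sig]

theorem sig_ord (z : ℂ) : analyticOrderAt (sig z) z = 1 ∧ analyticOrderAt (sig z) (2 - z) = 1 := by
  refine ⟨gsig_ord, ?_⟩
  by_cases hz : z = 1
  · subst hz
    have h : (2 : ℂ) - 1 = 1 := by norm_num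
    rw [h]
    exact gsig_ord
  · have h := ((sig_diff z).analyticAt (2 - z)).analyticOrderAt_eq_natCast (n := 1)
    rw [Nat.cast_one] at h
    refine h.2 ⟨fun s => s - z, ?_, ?_, Filter.Eventually.of_forall fun s => ?_⟩
    · exact (differentiable_id.sub_const z).analyticAt _
    · intro h
      apply hz
      have h1 : (2 : ℂ) * (1 - z) = 0 := by linear_combination h
      rcases mul_eq_zero.1 h1 with h2 | h2
      · norm_num at h2
      · linear_combination -h2
    · simp only [sig, gsig_of_ne hz, smul_eq_mul]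
      ring

private theorem gsig_id (c : ℝ) : PolyStrip c fun s => s := by
  intro a b _
  refine ⟨1, |a| + |b| + 1, zero_le_one, by positivity, fun s h1 h2 => ?_⟩
  have h3 : ‖s‖ ≤ |s.re| + |s.im| := Complex.norm_le_abs_re_add_abs_im s
  have h4 : |s.re| ≤ |a| + |b| := by
    rw [abs_le]
    have := neg_abs_le a
    have := le_abs_self b
    have := abs_nonneg a
    have := abs_nonneg b
    constructor <;> linarith
  have h6 : 0 ≤ |a| + |b| := by positivity
  have h7 : 0 ≤ |s.im| := abs_nonneg _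
  rw [Real.rpow_one]
  nlinarith

theorem sig_poly (z : ℂ) (c : ℝ) : PolyStrip c (sig z) := by
  have h1 : PolyStrip c fun s => s - z := by
    have := Pool.Agent.QD.In.ps_add (gsig_id c) (Pool.Agent.QD.In.ps_const c (-z))
    simpa only [sub_eq_add_neg] using this
  have h2 : PolyStrip c (rho z) := by
    by_cases hz : z = 1
    · subst hz
      rw [gsig_one]
      exact Pool.Agent.QD.In.ps_const c 1
    · rw [gsig_of_ne hz]
      have := Pool.Agent.QD.In.ps_add (gsig_id c) (Pool.Agent.QD.In.ps_const c (-2 + z))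
      refine Pool.Agent.QD.In.ps_congr this fun s _ => ?_
      ring
  exact Pool.Agent.QD.In.ps_mul h1 h2

private theorem gsig_finOrd {Q : ℂ → ℂ} (h : ∀ c : ℝ, PolyStrip c Q) : FinOrd Q := by
  intro a b
  obtain ⟨A, C, hA, hC, h1⟩ := h (b + 1) a b (by linarith)
  refine ⟨A, C + 1, fun s ha hb => (h1 s ha hb).trans ?_⟩
  have h2 : 1 ≤ 1 + |s.im| := by linarith [abs_nonneg s.im]
  have h3 : 1 ≤ (1 + |s.im|) ^ A := Real.one_le_rpow h2 hA
  have h4 : C ≤ Real.exp (C * (1 + |s.im|) ^ A) := by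
    have h5 := Real.add_one_le_exp (C * (1 + |s.im|) ^ A)
    have h6 : C * 1 ≤ C * (1 + |s.im|) ^ A := mul_le_mul_of_nonneg_left h3 hC
    linarith
  have h5 : (1 + |s.im|) ^ A ≤ Real.exp ((1 + |s.im|) ^ A) := by
    have h6 := Real.add_one_le_exp ((1 + |s.im|) ^ A)
    linarith
  rw [add_mul, one_mul, Real.exp_add]
  exact mul_le_mul h4 h5 (by linarith) (Real.exp_pos _).le

/-- away from the two zeros the factor has norm at least one -/
private theorem gsig_one_le {z s : ℂ} (h1 : 1 ≤ ‖s - z‖) (h2 : 1 ≤ ‖s - (2 - z)‖) :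
    1 ≤ ‖sig z s‖ := by
  rw [sig, norm_mul]
  refine one_le_mul_of_one_le_of_one_le h1 ?_
  by_cases hz : z = 1
  · subst hz
    simp [gsig_one]
  · rw [gsig_of_ne hz]
    have h3 : s - 2 + z = s - (2 - z) := by ring
    simp only [h3]
    exact h2

theorem div_sig {z : ℂ} (h1 : 1 ≤ z.re) (h2 : z.re ≤ 3 / 2) {f : ℂ → ℂ} (hf : Differentiable ℂ f)
    {e : ℕ} (hz1 : (e : ℕ∞) ≤ analyticOrderAt f z) (hz2 : (e : ℕ∞) ≤ analyticOrderAt f (2 - z)) :
    ∃ h : ℂ → ℂ, Differentiable ℂ h ∧ (∀ s : ℂ, f s = sig z s ^ e * h s) ∧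
      ((∀ c : ℝ, PolyStrip c f) → ∀ c : ℝ, PolyStrip c h) ∧ (FinOrd f → FinOrd h) := by
  have hg : Differentiable ℂ fun s => sig z s ^ e := (sig_diff z).pow e
  have hline : ∀ s : ℂ, s.re = 3 → 1 ≤ ‖s - z‖ ∧ 1 ≤ ‖s - (2 - z)‖ := by
    intro s hs
    have h3 := Complex.abs_re_le_norm (s - z)
    have h4 := Complex.abs_re_le_norm (s - (2 - z))
    have h5 := le_abs_self (s - z).re
    have h6 := le_abs_self (s - (2 - z)).re
    have h7 : (s - z).re = 3 - z.re := by simp [hs]
    have h8 : (s - (2 - z)).re = 3 - (2 - z.re) := by simp [hs]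
    constructor <;> linarith
  have hline' : ∀ s : ℂ, s.re = 3 → 1 ≤ ‖sig z s ^ e‖ := by
    intro s hs
    rw [norm_pow]
    exact one_le_pow₀ (gsig_one_le (hline s hs).1 (hline s hs).2)
  have hg0 : ∃ s, sig z s ^ e ≠ 0 := by
    refine ⟨3, fun h => ?_⟩
    have h3 := hline' 3 (by simp)
    rw [h, norm_zero] at h3
    linarith
  have hord : ∀ w : ℂ, analyticOrderAt (fun s => sig z s ^ e) w ≤ analyticOrderAt f w := by
    intro w
    have hp : analyticOrderAt (fun s => sig z s ^ e) w = e • analyticOrderAt (sig z) w :=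
      analyticOrderAt_pow ((sig_diff z).analyticAt w) e
    rw [hp]
    by_cases hw : w = z
    · subst hw
      rw [(sig_ord w).1]
      simpa using hz1
    · by_cases hw' : w = 2 - z
      · subst hw'
        rw [(sig_ord z).2]
        simpa using hz2
      · have h3 : analyticOrderAt (sig z) w = 0 :=
          ((sig_diff z).analyticAt w).analyticOrderAt_eq_zero.2 (sig_ne hw hw')
        rw [h3]
        simp
  obtain ⟨h, hh, he⟩ := entire_quot hf hg hg0 hord
  refine ⟨h, hh, he, fun hps c a b hb => ?_, fun hfo => ?_⟩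
  · obtain ⟨A, C, hA, hC, hf1⟩ := hps c a b hb
    obtain ⟨M1, hM1⟩ := (isCompact_closedBall z 1).exists_bound_of_continuousOn
      hh.continuous.continuousOn
    obtain ⟨M2, hM2⟩ := (isCompact_closedBall (2 - z) 1).exists_bound_of_continuousOn
      hh.continuous.continuousOn
    refine ⟨A, C + |M1| + |M2|, hA, by positivity, fun s ha hb' => ?_⟩
    have h3 : 1 ≤ 1 + |s.im| := by linarith [abs_nonneg s.im]
    have h4 : 1 ≤ (1 + |s.im|) ^ A := Real.one_le_rpow h3 hA
    have h5 : 0 ≤ |M1| := abs_nonneg _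
    have h6 : 0 ≤ |M2| := abs_nonneg _
    by_cases hs1 : ‖s - z‖ ≤ 1
    · have h7 := hM1 s (by rwa [Metric.mem_closedBall, dist_eq_norm])
      have h8 := le_abs_self M1
      nlinarith
    · by_cases hs2 : ‖s - (2 - z)‖ ≤ 1
      · have h7 := hM2 s (by rwa [Metric.mem_closedBall, dist_eq_norm])
        have h8 := le_abs_self M2
        nlinarith
      · have h7 : 1 ≤ ‖sig z s ^ e‖ := by
          rw [norm_pow]
          exact one_le_pow₀ (gsig_one_le (not_le.1 hs1).le (not_le.1 hs2).le)
        have h8 : ‖h s‖ ≤ ‖f s‖ := by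
          rw [he s, norm_mul]
          exact le_mul_of_one_le_left (norm_nonneg _) h7
        have h9 := hf1 s ha hb'
        nlinarith
  · refine finOrd_quot (c := 1) (k := 0) hf hg hh hfo
      (gsig_finOrd fun c => Pool.Agent.QD.In.ps_pow (sig_poly z c) e) he one_pos fun s hs => ?_
    have h3 : Real.exp (-(1 + |s.im|) ^ 0) ≤ 1 := by
      rw [pow_zero]
      exact Real.exp_le_one_iff.2 (by norm_num)
    linarith [hline' s hs]

end Pool.Agent.UPQ
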