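import Pool.Agent.UPQ.G.Core
import Pool.Agent.UPQ.G.Fac
import Pool.Agent.UPQ.G.Ord

/-!
# UPQ/G-Step: the pole orders double

Let `k` be the order of the pole of `Lam` over `K` at `z`, and suppose that over all quadratic extensions the order is at
most `2 k - 1`. `fac` gives a multiplier `Qf` which makes the functions over the quadratic extensions entire and
functions `P`, `R` with `P Qf = R²`, `P z = 0`; by `coreG` the function `R Lam` vanishes at `z`, and the order of the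
pole over `K` is at most `k - 1`.
-/

namespace Pool.Agent.UPQ

open NumberField IsDedekindDomain Pool.Agent.HWR Pool.Agent.QD Pool.Agent.QD.In Pool.Agent.LD
  Pool.Agent.MD Pool.Agent.THF

private theorem stp_diff {ι : Type} {f : ι → ℂ → ℂ} {σ₀ : ℝ} {u : ℝ → ι → ℝ}
    (hu : ∀ b, σ₀ < b → Summable (u b))
    (hb : ∀ b, σ₀ < b → ∀ s : ℂ, b ≤ s.re → ∀ i, ‖f i s - 1‖ ≤ u b i)
    (hd : ∀ i (s : ℂ), σ₀ < s.re → DifferentiableAt ℂ (f i) s) :
    DifferentiableOn ℂ (fun s => ∏' i, f i s) {s : ℂ | σ₀ < s.re} := by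
  intro s hs
  have hs' : σ₀ < s.re := hs
  have hb0 : σ₀ < (σ₀ + s.re) / 2 := by linarith
  have hU : IsOpen {z : ℂ | (σ₀ + s.re) / 2 < z.re} := isOpen_lt continuous_const Complex.continuous_re
  have hsU : s ∈ {z : ℂ | (σ₀ + s.re) / 2 < z.re} := by
    change (σ₀ + s.re) / 2 < s.re
    linarith
  have h1 := Summable.hasProdLocallyUniformlyOn_one_add (f := fun i z => f i z - 1) hU (hu _ hb0)
    (Filter.Eventually.of_forall fun i z hz => hb _ hb0 z (le_of_lt hz) i)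
    (fun i z hz => ((hd i z (hb0.trans hz)).continuousAt.sub continuousAt_const).continuousWithinAt)
  simp only [add_sub_cancel] at h1
  rw [hasProdLocallyUniformlyOn_iff_tendstoLocallyUniformlyOn] at h1
  have h2 := h1.differentiableOn (Filter.Eventually.of_forall fun t z hz => by
    refine DifferentiableAt.differentiableWithinAt ?_
    exact DifferentiableAt.fun_finsetProd fun i _ => hd i z (hb0.trans hz)) hU
  exact (h2.differentiableAt (hU.mem_nhds hsU)).differentiableWithinAt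

private theorem stp_LT {K : Type} [Field K] [NumberField K] {T : Finset ℕ}
    (hT : ∀ p : ℕ, p.Prime → p < 101 → p ∈ T) {a : ℕ → ℝ}
    (ha : ∀ q : ℕ, |a q| ≤ 2 * Real.sqrt q) :
    DifferentiableOn ℂ (LT K a T) {s : ℂ | 3 / 2 < s.re} := by
  have h := stp_diff (σ₀ := 3 / 2)
    (f := fun (v : {v : HeightOneSpectrum (𝓞 K) // Away K T v}) s => efac a (nrm v.1) s)
    (u := fun b v => 3 * (nrm v.1 : ℝ) ^ (1 / 2 - b)) ?_ ?_ ?_
  · exact h
  · intro b hb
    have h2 := ((summable_nrm K (x := b - 1 / 2) (by linarith)).comp_injective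
      (Subtype.val_injective (p := fun w => Away K T w))).mul_left 3
    refine h2.congr fun v => ?_
    have h4 : (1 / 2 - b : ℝ) = -(b - 1 / 2) := by ring
    rw [h4]
    rfl
  · intro b hb s hs v
    refine (efac_sub_one ha (nrm_ge K T hT v.1 v.2) (by linarith)).trans ?_
    have h0 := nrm_ge K T hT v.1 v.2
    have h1 : (1 : ℝ) ≤ nrm v.1 := by exact_mod_cast (by omega : 1 ≤ nrm v.1)
    have h2 := Real.rpow_le_rpow_of_exponent_le h1 (show 1 / 2 - s.re ≤ 1 / 2 - b by linarith)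
    linarith
  · intro v s hs
    exact efac_diff ha (nrm_ge K T hT v.1 v.2) (by linarith)

private theorem stp_Lam {T : Finset ℕ} (D : LocData T) {a : ℕ → ℝ} {F : Type} [Field F] [NumberField F]
    (hT : ∀ p : ℕ, p.Prime → p < 101 → p ∈ T)
    (ha : ∀ q : ℕ, |a q| ≤ 2 * Real.sqrt q) :
    DifferentiableOn ℂ (D.Lam a F) {s : ℂ | 3 / 2 < s.re} := by
  have hA : ((D.A F : ℝ) : ℂ) ≠ 0 := by exact_mod_cast (Pool.Agent.H73.AL.A_pos D F).ne'
  intro s hs
  have hs' : 3 / 2 < s.re := hs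
  have h1 : DifferentiableWithinAt ℂ (fun s : ℂ => ((D.A F : ℝ) : ℂ) ^ (s / 2))
      {s : ℂ | 3 / 2 < s.re} s :=
    ((differentiableAt_id.div_const 2).const_cpow (Or.inl hA)).differentiableWithinAt
  have h2 : DifferentiableWithinAt ℂ (fun s : ℂ => gam1 s ^ Module.finrank ℚ F)
      {s : ℂ | 3 / 2 < s.re} s :=
    ((gam1_diff (by linarith : 0 < s.re)).pow _).differentiableWithinAt
  have h3 : DifferentiableWithinAt ℂ (fun s : ℂ => LT F a T s / D.pl F s)
      {s : ℂ | 3 / 2 < s.re} s :=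
    (stp_LT hT ha s hs).div (Pool.Agent.QD.In.pl_diff D F s).differentiableWithinAt
      (Pool.Agent.QD.In.pl_ne D F hs'.le)
  exact (h1.mul h2).mul h3

private theorem stp_cont {T : Finset ℕ} (D : LocData T) {a : ℕ → ℝ} {F : Type} [Field F] [NumberField F]
    (hT : ∀ p : ℕ, p.Prime → p < 101 → p ∈ T)
    (ha : ∀ q : ℕ, |a q| ≤ 2 * Real.sqrt q) {s : ℂ} (hs : 3 / 2 < s.re) :
    ContinuousAt (D.Lam a F) s :=
  ((stp_Lam D hT ha).differentiableAt
    ((isOpen_lt continuous_const Complex.continuous_re).mem_nhds hs)).continuousAt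

private theorem stp_iso {Q : ℂ → ℂ} (hQ : Differentiable ℂ Q) (hQ0 : ∃ s, Q s ≠ 0) (z : ℂ) :
    ¬ ∀ᶠ w in nhds z, Q w = 0 := by
  intro h
  obtain ⟨s, hs⟩ := hQ0
  have h1 : AnalyticOnNhd ℂ Q Set.univ := fun w _ => hQ.analyticAt w
  have h2 : AnalyticOnNhd ℂ (fun _ : ℂ => (0 : ℂ)) Set.univ := fun w _ => analyticAt_const
  have h3 := h1.eq_of_eventuallyEq h2 h
  exact hs (congrFun h3 s)

private theorem stp_top {Q : ℂ → ℂ} (hQ : Differentiable ℂ Q) (hQ0 : ∃ s, Q s ≠ 0) (z : ℂ) :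
    analyticOrderAt Q z ≠ ⊤ := by
  rw [Ne, analyticOrderAt_eq_top]
  exact stp_iso hQ hQ0 z

private theorem stp_ext {Q : ℂ → ℂ} (hQ : Differentiable ℂ Q) (hQ0 : ∃ s, Q s ≠ 0) {f g : ℂ → ℂ} {s : ℂ}
    (hs : 3 / 2 < s.re) (hf : ContinuousAt f s) (hg : ContinuousAt g s)
    (h : ∀ w : ℂ, 3 / 2 < w.re → Q w ≠ 0 → f w = g w) : f s = g s := by
  have h1 : ∀ᶠ w in nhdsWithin s {s}ᶜ, Q w ≠ 0 :=
    ((hQ.analyticAt s).eventually_eq_zero_or_eventually_ne_zero).resolve_left (stp_iso hQ hQ0 s)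
  have h2 : {u : ℂ | 3 / 2 < u.re} ∈ nhds s :=
    (isOpen_lt continuous_const Complex.continuous_re).mem_nhds hs
  have h3 : f =ᶠ[nhdsWithin s {s}ᶜ] g := by
    filter_upwards [mem_nhdsWithin_of_mem_nhds h2, h1] with u hu hu'
    exact h u hu hu'
  exact ((hf.eventuallyEq_nhds_iff_eventuallyEq_nhdsNE hg).1 h3).eq_of_nhds

private theorem stp_cancel {f g : ℂ → ℂ} (hf : Differentiable ℂ f) (hg : Differentiable ℂ g)
    (hf0 : ∃ s, f s ≠ 0) (h : ∀ s, f s * g s = 0) (s : ℂ) : g s = 0 := by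
  obtain ⟨s0, hs0⟩ := hf0
  have h1 : ∀ᶠ w in nhds s0, g w = 0 := by
    filter_upwards [hf.continuous.continuousAt.eventually_ne hs0] with w hw
    exact (mul_eq_zero.1 (h w)).resolve_left hw
  by_contra h2
  exact stp_iso hg ⟨s, h2⟩ s0 h1

/-- the functions over the quadratic extensions -/
private theorem stp_hws {T : Finset ℕ} (D : LocData T) {a : ℕ → ℝ} {F : Type} [Field F] [NumberField F]
    (hT : ∀ p : ℕ, p.Prime → p < 101 → p ∈ T) (ha : ∀ q : ℕ, |a q| ≤ 2 * Real.sqrt q)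
    {Q Qf : ℂ → ℂ} (hQ : IsMul Q) (hQf : IsMul Qf) {κ : ℂ} (hκ : κ = 1 ∨ κ = -1)
    (hs : ∀ s : ℂ, Qf (2 - s) = κ * Qf s) {G A : ℂ → ℂ}
    (hGe : ∀ s : ℂ, 3 / 2 < s.re → G s = Q s * D.Lam a F s)
    (hGf : ∀ s : ℂ, G s * Q (2 - s) = D.w F * (G (2 - s) * Q s))
    (hAd : Differentiable ℂ A) (hAo : FinOrd A) (hA : ∀ s : ℂ, Q s * A s = Qf s * G s) :
    HWS D a κ Qf F := by
  refine ⟨A, hAd, hAo, fun s => ?_, fun s h1 => ?_⟩
  · have hr : Differentiable ℂ fun s : ℂ => (2 : ℂ) - s := by fun_prop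
    have hκ2 : κ * κ = 1 := by
      rcases hκ with h | h <;> rw [h] <;> norm_num
    have hd : Differentiable ℂ fun s => A s - κ * D.w F * A (2 - s) :=
      hAd.sub ((hAd.comp hr).const_mul _)
    have hd2 : Differentiable ℂ fun s => Q (2 - s) := hQ.diff.comp hr
    have h2 : ∀ s, Q s * (Q (2 - s) * (A s - κ * D.w F * A (2 - s))) = 0 := by
      intro s
      have e1 := hA s
      have e2 := hA (2 - s)
      rw [hs s] at e2
      have e3 := hGf s
      linear_combination Q (2 - s) * e1 - κ * D.w F * Q s * e2 + Qf s * e3 -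
        Qf s * D.w F * G (2 - s) * Q s * hκ2
    have h3 := stp_cancel hQ.diff (hd2.mul hd) hQ.ne h2
    have h4 : ∃ s, Q (2 - s) ≠ 0 := by
      obtain ⟨s, hs⟩ := hQ.ne
      exact ⟨2 - s, by rwa [sub_sub_cancel]⟩
    have h5 := stp_cancel hd2 hd h4 h3 s
    exact sub_eq_zero.1 h5
  · refine stp_ext hQ.diff hQ.ne h1 hAd.continuous.continuousAt
      (g := fun s => Qf s * D.Lam a F s)
      (hQf.diff.continuous.continuousAt.mul (stp_cont D hT ha h1)) fun w hw hw0 => ?_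
    have e1 := hA w
    rw [hGe w hw] at e1
    refine mul_left_cancel₀ hw0 ?_
    linear_combination e1

theorem step {T : Finset ℕ} (hTp : ∀ p ∈ T, p.Prime)
    (hT : ∀ p : ℕ, p.Prime → p < 101 → p ∈ T) (D : LocData T) {a : ℕ → ℝ}
    (ha : ∀ q : ℕ, |a q| ≤ 2 * Real.sqrt q) (hfr : FrobRel T a)
    (haz : ∀ q : ℕ, ∃ n : ℤ, a q = n) (K : Type) [Field K] [NumberField K] {Q : ℂ → ℂ}
    (hQ : IsMul Q) {z : ℂ} (h1 : 1 ≤ z.re) (h2 : z.re ≤ 3 / 2) (hK : HWG D a Q K) {h0 : ℕ}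
    (hL : ∀ (L : Type) [Field L] [NumberField L] [Algebra K L], Module.finrank K L = 2 →
      HWG D a Q L ∧ PoleLe D a Q L z h0) : ∃ m : ℕ, 2 * m ≤ h0 ∧ PoleLe D a Q K z m := by
  classical
  obtain ⟨G, hGd, _, hGe, _⟩ := hK
  have hG : IsG D a Q K G := ⟨hGd, hGe⟩
  have hP : ∀ m : ℕ, PoleLe D a Q K z m ↔ analyticOrderAt Q z ≤ analyticOrderAt G z + m := by
    intro m
    refine ⟨fun h => h G hG, fun h G' hG' => ?_⟩
    rw [isG_unique D hG' hG]
    exact h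
  have hex : ∃ m : ℕ, PoleLe D a Q K z m := by
    obtain ⟨n, hn⟩ := ENat.ne_top_iff_exists.1 (stp_top hQ.diff hQ.ne z)
    refine ⟨n, (hP n).2 ?_⟩
    rw [← hn]
    exact le_add_self
  obtain ⟨k, hk, hmin⟩ : ∃ k, PoleLe D a Q K z k ∧ ∀ m < k, ¬ PoleLe D a Q K z m :=
    ⟨Nat.find hex, Nat.find_spec hex, fun m hm => Nat.find_min hex hm⟩
  by_cases hkh : 2 * k ≤ h0
  · exact ⟨k, hkh, hk⟩
  exfalso
  have hk1 : 1 ≤ k := by omega
  have hh0 : h0 ≤ 2 * k - 1 := by omega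
  obtain ⟨κ, Qf, P, R, hκ, hQf, hPd, hPR, hPz, hQfs, hfa, hfb⟩ := fac hQ h1 h2 hk1
  have HL : ∀ (L : Type) [Field L] [NumberField L] [Algebra K L], Module.finrank K L = 2 →
      HWS D a κ Qf L := by
    intro L _ _ _ hL2
    obtain ⟨hLg, hLp⟩ := hL L hL2
    have hp1 := poleLe_mono D hh0 hLp
    have hp2 := poleLe_refl D hQ.diff hQ.ne hLg hp1
    obtain ⟨GM, hMd, hMo, hMe, hMf⟩ := hLg
    obtain ⟨A, hAd, hAo, hA⟩ := hfa GM hMd hMo (hp1 GM ⟨hMd, hMe⟩) (hp2 GM ⟨hMd, hMe⟩)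
    exact stp_hws D hT ha hQ hQf hκ hQfs hMe hMf hAd hAo hA
  obtain ⟨AK, hAKd, hAK, hAKz⟩ := hfb G hGd ((hP k).1 hk)
  have hsq : ∀ s : ℂ, 3 / 2 < s.re → AK s ^ 2 = P s * Qf s * D.Lam a K s ^ 2 := by
    intro s hs
    refine stp_ext hQ.diff hQ.ne hs (f := fun s => AK s ^ 2)
      (g := fun s => P s * Qf s * D.Lam a K s ^ 2) (hAKd.continuous.continuousAt.pow 2)
      ((hPd.continuous.continuousAt.mul hQf.diff.continuous.continuousAt).mul
        ((stp_cont D hT ha hs).pow 2)) fun w hw hw0 => ?_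
    have e1 := hAK w
    rw [hGe w hw] at e1
    have e2 : AK w = R w * D.Lam a K w := mul_left_cancel₀ hw0 (by linear_combination e1)
    show AK w ^ 2 = P w * Qf w * D.Lam a K w ^ 2
    rw [hPR, e2]
    ring
  let R' : ℂ → ℂ := fun s => if 3 / 2 < s.re ∧ D.Lam a K s ≠ 0 then AK s / D.Lam a K s else R s
  have hPR' : ∀ s : ℂ, P s * Qf s = R' s ^ 2 := by
    intro s
    show P s * Qf s = (if 3 / 2 < s.re ∧ D.Lam a K s ≠ 0 then AK s / D.Lam a K s else R s) ^ 2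
    split_ifs with hc
    · rw [div_pow, hsq s hc.1, mul_div_cancel_right₀ _ (pow_ne_zero 2 hc.2)]
    · exact hPR s
  have hAe : ∀ s : ℂ, 3 / 2 < s.re → AK s = R' s * D.Lam a K s := by
    intro s hs
    show AK s = (if 3 / 2 < s.re ∧ D.Lam a K s ≠ 0 then AK s / D.Lam a K s else R s) * D.Lam a K s
    split_ifs with hc
    · rw [div_mul_cancel₀ _ hc.2]
    · have hc' : D.Lam a K s = 0 := by
        by_contra hc'
        exact hc ⟨hs, hc'⟩
      have e1 := hsq s hs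
      rw [hc', zero_pow two_ne_zero, mul_zero] at e1
      rw [hc', mul_zero]
      exact pow_eq_zero_iff two_ne_zero |>.1 e1
  have hz := coreG hTp hT D ha hfr haz K hκ hQf hPd hPR' h1 h2 hPz HL hAKd hAe
  exact hmin (k - 1) (by omega) ((hP (k - 1)).2 (hAKz hz))

end Pool.Agent.UPQ
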